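import Pool.Agent.Helper9.MP.Lat
import Pool.Agent.Helper45.MP.UNFB
import Pool.Agent.Helper57.MP.HECKE

/-!
# MP_bde085_nt, module PADJ: Hecke operators are self-adjoint for the Petersson product
-/

set_option autoImplicit false

namespace Pool.Agent.Helper96.MP

open Complex MeasureTheory Filter Topology
open scoped MatrixGroups ENNReal

/-- integral matrices of determinant `l` with lower left entry divisible by `N` -/
def PadO (N l : ℕ) : Type :=
  {A : ℤ × ℤ × ℤ × ℤ // A.1 * A.2.2.2 - A.2.1 * A.2.2.1 = (l : ℤ) ∧ (N : ℤ) ∣ A.2.2.1}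

theorem padj_countable (N l : ℕ) : Countable (PadO N l) := by
  unfold PadO; infer_instance

/-- the adjugate -/
def padA (N l : ℕ) : PadO N l ≃ PadO N l where
  toFun A := ⟨(A.1.2.2.2, -A.1.2.1, -A.1.2.2.1, A.1.1), by
    constructor
    · have h := A.2.1
      show A.1.2.2.2 * A.1.1 - -A.1.2.1 * -A.1.2.2.1 = (l : ℤ)
      linear_combination h
    · exact (dvd_neg).2 A.2.2⟩
  invFun A := ⟨(A.1.2.2.2, -A.1.2.1, -A.1.2.2.1, A.1.1), by
    constructor
    · have h := A.2.1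
      show A.1.2.2.2 * A.1.1 - -A.1.2.1 * -A.1.2.2.1 = (l : ℤ)
      linear_combination h
    · exact (dvd_neg).2 A.2.2⟩
  left_inv A := by
    apply Subtype.ext
    simp
  right_inv A := by
    apply Subtype.ext
    simp

noncomputable def padM {N l : ℕ} (A : PadO N l) (z : ℂ) : ℂ := mo A.1.1 A.1.2.1 A.1.2.2.1 A.1.2.2.2 z

noncomputable def padJ {N l : ℕ} (A : PadO N l) (z : ℂ) : ℂ :=
  (A.1.2.2.1 : ℂ) * z + (A.1.2.2.2 : ℂ)

theorem padj_detC {N l : ℕ} (A : PadO N l) :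
    (A.1.1 : ℂ) * (A.1.2.2.2 : ℂ) - (A.1.2.1 : ℂ) * (A.1.2.2.1 : ℂ) = (l : ℂ) := by
  exact_mod_cast congrArg (fun n : ℤ => (n : ℂ)) A.2.1

theorem padJ_ne {N l : ℕ} (hl : 0 < l) (A : PadO N l) {z : ℂ} (hz : z ∈ UH) : padJ A z ≠ 0 := by
  intro h
  have hz' : 0 < z.im := hz
  have him := congrArg Complex.im h
  have hre := congrArg Complex.re h
  simp [padJ] at him hre
  have hd := A.2.1
  rcases him with h0 | h0
  · rw [h0] at hre hd
    simp at hre
    rw [hre] at hd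
    simp at hd
    omega
  · linarith

theorem padM_eq {N l : ℕ} (A : PadO N l) (z : ℂ) :
    padM A z = ((A.1.1 : ℂ) * z + (A.1.2.1 : ℂ)) / padJ A z := rfl

theorem padM_im {N l : ℕ} (hl : 0 < l) (A : PadO N l) {z : ℂ} (hz : z ∈ UH) :
    (padM A z).im = (l : ℝ) * z.im / ‖padJ A z‖ ^ 2 := by
  have h := Lib.mo_im A.1.1 A.1.2.1 A.1.2.2.1 A.1.2.2.2 z (padJ_ne hl A hz)
  rw [A.2.1] at h
  simpa [padM, padJ] using h

theorem padM_mem {N l : ℕ} (hl : 0 < l) (A : PadO N l) {z : ℂ} (hz : z ∈ UH) : padM A z ∈ UH := by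
  have hz' : 0 < z.im := hz
  have hne := padJ_ne hl A hz
  have hl' : (0 : ℝ) < l := by exact_mod_cast hl
  show 0 < (padM A z).im
  rw [padM_im hl A hz]
  positivity

theorem padJ_adj {N l : ℕ} (hl : 0 < l) (A : PadO N l) {z : ℂ} (hz : z ∈ UH) :
    padJ (padA N l A) (padM A z) * padJ A z = (l : ℂ) := by
  have hne := padJ_ne hl A hz
  have e1 : padJ (padA N l A) (padM A z) = -(A.1.2.2.1 : ℂ) * padM A z + (A.1.1 : ℂ) := by
    simp [padJ, padA]
  rw [e1, padM_eq, add_mul, mul_assoc, div_mul_cancel₀ _ hne]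
  unfold padJ
  linear_combination padj_detC A

theorem padM_adj {N l : ℕ} (hl : 0 < l) (A : PadO N l) {z : ℂ} (hz : z ∈ UH) :
    padM (padA N l A) (padM A z) = z := by
  have hne := padJ_ne hl A hz
  have hne2 := padJ_ne hl (padA N l A) (padM_mem hl A hz)
  have hl' : (l : ℂ) ≠ 0 := by exact_mod_cast hl.ne'
  rw [padM_eq (padA N l A), div_eq_iff hne2]
  have h1 := padJ_adj hl A hz
  have e1 : ((padA N l A).1.1 : ℂ) = (A.1.2.2.2 : ℂ) := rfl
  have e2 : ((padA N l A).1.2.1 : ℂ) = -(A.1.2.1 : ℂ) := by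
    show (((-A.1.2.1 : ℤ)) : ℂ) = _
    push_cast; ring
  rw [e1, e2]
  apply mul_right_cancel₀ hne
  rw [mul_assoc, h1, padM_eq, add_mul, mul_assoc, div_mul_cancel₀ _ hne]
  unfold padJ
  linear_combination z * padj_detC A

theorem padA_padA {N l : ℕ} (A : PadO N l) : padA N l (padA N l A) = A := by
  apply Subtype.ext
  simp [padA]

theorem padM_image {N l : ℕ} (hl : 0 < l) (A : PadO N l) : padM A '' UH = UH := by
  ext z
  constructor
  · rintro ⟨w, hw, rfl⟩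
    exact padM_mem hl A hw
  · intro hz
    refine ⟨padM (padA N l A) z, padM_mem hl _ hz, ?_⟩
    have := padM_adj hl (padA N l A) hz
    rwa [padA_padA] at this

theorem padM_injOn {N l : ℕ} (hl : 0 < l) (A : PadO N l) : Set.InjOn (padM A) UH := by
  intro z hz w hw h
  rw [← padM_adj hl A hz, h, padM_adj hl A hw]

theorem padM_deriv {N l : ℕ} (hl : 0 < l) (A : PadO N l) {z : ℂ} (hz : z ∈ UH) :
    HasDerivAt (padM A) ((l : ℂ) * ((padJ A z) ^ 2)⁻¹) z := by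
  have hne := padJ_ne hl A hz
  have h1 : HasDerivAt (fun z : ℂ => (A.1.1 : ℂ) * z + (A.1.2.1 : ℂ)) (A.1.1 : ℂ) z := by
    simpa using ((hasDerivAt_id z).const_mul (A.1.1 : ℂ)).add_const (A.1.2.1 : ℂ)
  have h2 : HasDerivAt (padJ A) (A.1.2.2.1 : ℂ) z := by
    have h := ((hasDerivAt_id z).const_mul (A.1.2.2.1 : ℂ)).add_const (A.1.2.2.2 : ℂ)
    rw [mul_one] at h
    exact h
  have h3 := h1.div h2 hne
  have hd := padj_detC A
  have e : ((l : ℂ) * ((padJ A z) ^ 2)⁻¹) = ((A.1.1 : ℂ) * padJ A z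
      - ((A.1.1 : ℂ) * z + (A.1.2.1 : ℂ)) * (A.1.2.2.1 : ℂ)) / padJ A z ^ 2 := by
    rw [eq_div_iff (pow_ne_zero 2 hne), mul_assoc, inv_mul_cancel₀ (pow_ne_zero 2 hne)]
    unfold padJ
    linear_combination -hd
  rw [e]
  exact h3

theorem padj_meas_J {N l : ℕ} (A : PadO N l) : Measurable (padJ A) := by
  unfold padJ
  exact (measurable_const.mul measurable_id).add measurable_const

theorem padj_meas_M {N l : ℕ} (A : PadO N l) : Measurable (padM A) := by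
  have : padM A = fun z => ((A.1.1 : ℂ) * z + (A.1.2.1 : ℂ)) / padJ A z := rfl
  rw [this]
  exact ((measurable_const.mul measurable_id).add measurable_const).div (padj_meas_J A)

theorem padj_abs {N l : ℕ} (A : PadO N l) (z : ℂ) :
    |‖(l : ℂ) * ((padJ A z) ^ 2)⁻¹‖ ^ 2| = (l : ℝ) ^ 2 * (‖padJ A z‖ ^ 4)⁻¹ := by
  rw [abs_of_nonneg (by positivity), norm_mul, norm_inv, norm_pow, Complex.norm_natCast, mul_pow,
    inv_pow, ← pow_mul]

theorem padj_lint {N l : ℕ} (hl : 0 < l) (A : PadO N l) (f : ℂ → ℝ≥0∞) :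
    ∫⁻ z in UH, f z = ∫⁻ z in UH, ENNReal.ofReal ((l : ℝ) ^ 2 * (‖padJ A z‖ ^ 4)⁻¹) * f (padM A z) := by
  conv_lhs => rw [← padM_image hl A]
  rw [lintegral_image_eq_lintegral_abs_det_fderiv_mul volume unf_measSet
    (f' := fun z => ContinuousLinearMap.restrictScalars ℝ
      (ContinuousLinearMap.toSpanSingleton ℂ ((l : ℂ) * ((padJ A z) ^ 2)⁻¹) : ℂ →L[ℂ] ℂ))
    (fun z hz => ((padM_deriv hl A hz).hasFDerivAt.restrictScalars ℝ).hasFDerivWithinAt)
    (padM_injOn hl A)]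
  refine setLIntegral_congr_fun unf_measSet fun z _ => ?_
  simp only [unf_det_smul, padj_abs]

theorem padj_int {N l : ℕ} (hl : 0 < l) (A : PadO N l) (f : ℂ → ℂ) :
    ∫ z in UH, f z = ∫ z in UH, ((l : ℝ) ^ 2 * (‖padJ A z‖ ^ 4)⁻¹) • f (padM A z) := by
  conv_lhs => rw [← padM_image hl A]
  rw [integral_image_eq_integral_abs_det_fderiv_smul volume unf_measSet
    (f' := fun z => ContinuousLinearMap.restrictScalars ℝ
      (ContinuousLinearMap.toSpanSingleton ℂ ((l : ℂ) * ((padJ A z) ^ 2)⁻¹) : ℂ →L[ℂ] ℂ))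
    (fun z hz => ((padM_deriv hl A hz).hasFDerivAt.restrictScalars ℝ).hasFDerivWithinAt)
    (padM_injOn hl A)]
  refine setIntegral_congr_fun unf_measSet fun z _ => ?_
  simp only [unf_det_smul, padj_abs]

/-! ### cosets -/

theorem padj_Tn {l : ℕ} (hl : 0 < l) {t : ℕ × ℕ × ℕ} (ht : t ∈ Tn l) :
    t.1 * t.2.2 = l ∧ 0 < t.1 ∧ 0 < t.2.2 := by
  simp only [Tn, Finset.mem_filter] at ht
  have h1 := ht.2.1
  refine ⟨h1, ?_, ?_⟩
  · rcases Nat.eq_zero_or_pos t.1 with h | h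
    · rw [h, zero_mul] at h1; omega
    · exact h
  · rcases Nat.eq_zero_or_pos t.2.2 with h | h
    · rw [h, mul_zero] at h1; omega
    · exact h

theorem padj_act_im (t : ℕ × ℕ × ℕ) (z : ℂ) :
    (act t z).im = (t.1 : ℝ) * z.im / (t.2.2 : ℝ) := by
  unfold act
  rw [Complex.div_natCast_im]
  simp

theorem padj_act_mem {l : ℕ} (hl : 0 < l) {t : ℕ × ℕ × ℕ} (ht : t ∈ Tn l) {z : ℂ} (hz : z ∈ UH) :
    act t z ∈ UH := by
  obtain ⟨_, h2, h3⟩ := padj_Tn hl ht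
  have h2' : (0 : ℝ) < t.1 := by exact_mod_cast h2
  have h3' : (0 : ℝ) < t.2.2 := by exact_mod_cast h3
  have hz' : 0 < z.im := hz
  show 0 < (act t z).im
  rw [padj_act_im]
  positivity

def padF (N : ℕ) {l : ℕ} (hl : 0 < l) (u : {t // t ∈ Tn l} × CongruenceSubgroup.Gamma0 N) :
    PadO N l :=
  ⟨(u.2.1 0 0 * u.1.1.1, u.2.1 0 0 * u.1.1.2.1 + u.2.1 0 1 * u.1.1.2.2,
    u.2.1 1 0 * u.1.1.1, u.2.1 1 0 * u.1.1.2.1 + u.2.1 1 1 * u.1.1.2.2), by
    constructor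
    · have h1 := Lib.det1 u.2.1
      have h2 : ((u.1.1.1 : ℤ) * (u.1.1.2.2 : ℤ)) = (l : ℤ) := by
        exact_mod_cast (padj_Tn hl u.1.2).1
      show u.2.1 0 0 * u.1.1.1 * (u.2.1 1 0 * u.1.1.2.1 + u.2.1 1 1 * u.1.1.2.2) -
        (u.2.1 0 0 * u.1.1.2.1 + u.2.1 0 1 * u.1.1.2.2) * (u.2.1 1 0 * u.1.1.1) = (l : ℤ)
      rw [← h2]
      linear_combination ((u.1.1.1 : ℤ) * (u.1.1.2.2 : ℤ)) * h1
    · exact Dvd.dvd.mul_right (Lib.g0_of_mem u.2.2).2 _⟩

theorem padF_bij (hH : ST_HERM) (N : ℕ) {l : ℕ} (hl : l.Prime) (hlN : ¬ l ∣ N) :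
    Function.Bijective (padF N hl.pos) := by
  constructor
  · rintro ⟨t, g⟩ ⟨t', g'⟩ h
    have h0 : (padF N hl.pos (t, g)).1 = (padF N hl.pos (t', g')).1 := by rw [h]
    simp only [padF, Prod.mk.injEq] at h0
    obtain ⟨e1, e2, e3, e4⟩ := h0
    have hdet := (padF N hl.pos (t, g)).2.1
    simp only [padF] at hdet
    obtain ⟨t0, _, huniq⟩ := hH l hl.one_le _ _ _ _ hdet
    have ht : t.1 = t0 := huniq t.1 ⟨t.2, g.1 0 0, g.1 0 1, g.1 1 0, g.1 1 1, by
      linear_combination Lib.det1 g.1, rfl, rfl, rfl, rfl⟩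
    have ht' : t'.1 = t0 := huniq t'.1 ⟨t'.2, g'.1 0 0, g'.1 0 1, g'.1 1 0, g'.1 1 1, by
      linear_combination Lib.det1 g'.1, e1, e2, e3, e4⟩
    have htt : t = t' := Subtype.ext (ht.trans ht'.symm)
    subst htt
    obtain ⟨_, ha, hd⟩ := padj_Tn hl.pos t.2
    have ha' : ((t.1.1 : ℕ) : ℤ) ≠ 0 := by exact_mod_cast ha.ne'
    have hd' : ((t.1.2.2 : ℕ) : ℤ) ≠ 0 := by exact_mod_cast hd.ne'
    have f1 : g.1 0 0 = g'.1 0 0 := mul_right_cancel₀ ha' e1
    have f3 : g.1 1 0 = g'.1 1 0 := mul_right_cancel₀ ha' e3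
    have f2 : g.1 0 1 = g'.1 0 1 := by
      apply mul_right_cancel₀ hd'
      rw [f1] at e2
      exact add_left_cancel e2
    have f4 : g.1 1 1 = g'.1 1 1 := by
      apply mul_right_cancel₀ hd'
      rw [f3] at e4
      exact add_left_cancel e4
    have hg : g = g' := by
      apply Subtype.ext
      apply Subtype.ext
      ext i j
      fin_cases i <;> fin_cases j
      · exact f1
      · exact f2
      · exact f3
      · exact f4
    rw [hg]
  · rintro ⟨⟨p, q, r, s⟩, hdet, hN⟩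
    obtain ⟨t, ⟨ht, p', q', r', s', hd1, h1, h2, h3, h4⟩, _⟩ := hH l hl.one_le p q r s hdet
    obtain ⟨had, ha, hd⟩ := padj_Tn hl.pos ht
    have hcop : IsCoprime (N : ℤ) (t.1 : ℤ) := by
      rw [Nat.isCoprime_iff_coprime]
      have h5 : Nat.Coprime N l := ((Nat.Prime.coprime_iff_not_dvd hl).2 hlN).symm
      exact Nat.Coprime.coprime_dvd_right ⟨t.2.2, had.symm⟩ h5
    have hN' : (N : ℤ) ∣ r' := by
      have : (N : ℤ) ∣ r' * t.1 := by
        have h6 : (N : ℤ) ∣ r := hN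
        rwa [h3] at h6
      exact hcop.dvd_of_dvd_mul_right this
    let γ : SL(2, ℤ) := ⟨!![p', q'; r', s'], by
      rw [Matrix.det_fin_two_of]; exact hd1⟩
    have hγ : γ ∈ CongruenceSubgroup.Gamma0 N := Lib.mem_of_dvd (g := γ) hN'
    refine ⟨(⟨t, ht⟩, ⟨γ, hγ⟩), ?_⟩
    apply Subtype.ext
    show (p' * (t.1 : ℤ), p' * (t.2.1 : ℤ) + q' * (t.2.2 : ℤ), r' * (t.1 : ℤ),
      r' * (t.2.1 : ℤ) + s' * (t.2.2 : ℤ)) = (p, q, r, s)
    rw [← h1, ← h2, ← h3, ← h4]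

noncomputable def padE (hH : ST_HERM) (N : ℕ) {l : ℕ} (hl : l.Prime) (hlN : ¬ l ∣ N) :
    {t // t ∈ Tn l} × CongruenceSubgroup.Gamma0 N ≃ PadO N l :=
  Equiv.ofBijective _ (padF_bij hH N hl hlN)

theorem padF_J {N l : ℕ} (hl : 0 < l) (u : {t // t ∈ Tn l} × CongruenceSubgroup.Gamma0 N) (z : ℂ) :
    padJ (padF N hl u) z = jj u.2.1 (act u.1.1 z) * (u.1.1.2.2 : ℂ) := by
  have hd : ((u.1.1.2.2 : ℕ) : ℂ) ≠ 0 := by exact_mod_cast (padj_Tn hl u.1.2).2.2.ne'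
  unfold padJ jj act
  simp only [padF]
  push_cast
  field_simp
  ring

theorem padF_M {N l : ℕ} (hl : 0 < l) (u : {t // t ∈ Tn l} × CongruenceSubgroup.Gamma0 N) {z : ℂ}
    (hz : z ∈ UH) : padM (padF N hl u) z = mob u.2.1 (act u.1.1 z) := by
  have hd : ((u.1.1.2.2 : ℕ) : ℂ) ≠ 0 := by exact_mod_cast (padj_Tn hl u.1.2).2.2.ne'
  have hw := padj_act_mem hl u.1.2 hz
  have hj := Lib.jj_ne u.2.1 hw
  have hJ := padJ_ne hl (padF N hl u) hz
  rw [padM_eq, Lib.mob_eq, div_eq_div_iff hJ hj, padF_J]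
  unfold act
  simp only [padF]
  push_cast
  field_simp
  ring

theorem padj_wsum {N : ℕ} {W : ℂ → ℝ} (hW : WOK N W) {z : ℂ} (hz : z ∈ UH) :
    ∑' g : CongruenceSubgroup.Gamma0 N, ENNReal.ofReal (W (mob g.1 z)) = 1 := by
  have h := hW.sum z hz
  rw [← ENNReal.ofReal_tsum_of_nonneg (fun g => hW.nonneg _) h.summable, h.tsum_eq]
  simp

/-- summation over the matrices -/
theorem padj_tsum (hH : ST_HERM) {N l : ℕ} (hl : l.Prime) (hlN : ¬ l ∣ N) {W : ℂ → ℝ}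
    (hW : WOK N W) {z : ℂ} (hz : z ∈ UH) (Φ : PadO N l → ℝ≥0∞) (c : {t // t ∈ Tn l} → ℝ≥0∞)
    (hΦ : ∀ u, Φ (padF N hl.pos u) = c u.1 * ENNReal.ofReal (W (mob u.2.1 (act u.1.1 z)))) :
    ∑' A, Φ A = ∑ t, c t := by
  rw [← (padE hH N hl hlN).tsum_eq Φ]
  have h1 : ∀ u, Φ (padE hH N hl hlN u) = c u.1 * ENNReal.ofReal (W (mob u.2.1 (act u.1.1 z))) :=
    fun u => hΦ u
  rw [tsum_congr h1, ENNReal.tsum_prod', tsum_fintype]
  refine Finset.sum_congr rfl fun t _ => ?_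
  show ∑' g : CongruenceSubgroup.Gamma0 N, c t * ENNReal.ofReal (W (mob g.1 (act t.1 z))) = c t
  rw [ENNReal.tsum_mul_left, padj_wsum hW (padj_act_mem hl.pos t.2 hz), mul_one]

theorem padj_hasSum (hH : ST_HERM) {N l : ℕ} (hl : l.Prime) (hlN : ¬ l ∣ N) {W : ℂ → ℝ}
    (hW : WOK N W) {z : ℂ} (hz : z ∈ UH) (Φ : PadO N l → ℂ) (c : {t // t ∈ Tn l} → ℂ)
    (hΦ : ∀ u, Φ (padF N hl.pos u) = c u.1 * (W (mob u.2.1 (act u.1.1 z)) : ℂ)) :
    HasSum Φ (∑ t, c t) := by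
  rw [← (padE hH N hl hlN).hasSum_iff]
  have h1 : (Φ ∘ (padE hH N hl hlN)) = fun u => c u.1 * (W (mob u.2.1 (act u.1.1 z)) : ℂ) :=
    funext fun u => hΦ u
  rw [h1]
  have h2 : ∀ t : {t // t ∈ Tn l}, HasSum (fun g : CongruenceSubgroup.Gamma0 N =>
      c t * (W (mob g.1 (act t.1 z)) : ℂ)) (c t) := by
    intro t
    have h3 := (hW.sum _ (padj_act_mem hl.pos t.2 hz))
    have h4 := Complex.hasSum_ofReal.2 h3
    rw [Complex.ofReal_one] at h4
    simpa using h4.mul_left (c t)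
  have h5 : Summable (fun u : {t // t ∈ Tn l} × CongruenceSubgroup.Gamma0 N =>
      c u.1 * (W (mob u.2.1 (act u.1.1 z)) : ℂ)) := by
    apply Summable.of_norm
    rw [summable_prod_of_nonneg (fun u => norm_nonneg _)]
    refine ⟨fun t => (h2 t).summable.norm, ?_⟩
    exact Summable.of_finite
  have h6 := h5.hasSum.prod_fiberwise h2
  have h7 := (hasSum_fintype c).unique h6
  rw [h7]
  exact h5.hasSum

/-! ### integrability -/

theorem padj_SB : MeasurableSet SB := by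
  have h1 : Measurable fun z : ℂ => |z.re| := Complex.measurable_re.abs
  exact (measurableSet_le h1 measurable_const).inter
    (measurableSet_le measurable_const Complex.measurable_im)

theorem padj_box (hNR : ST_NRM) : ∫⁻ z in SB, ENNReal.ofReal ((z.im ^ 2)⁻¹) < ⊤ := by
  have h := (hNR.2.2 (4 / 5) le_rfl).1
  have hs : SB ∩ {z : ℂ | 4 / 5 ≤ z.im} = SB := by
    ext z
    exact ⟨fun h => h.1, fun h => ⟨h, h.2⟩⟩
  rw [hs] at h
  have h2 := h.2
  rw [hasFiniteIntegral_iff_ofReal (Eventually.of_forall fun z => by positivity)] at h2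
  exact h2

theorem padj_fin (hNR : ST_NRM) {N : ℕ} {W : ℂ → ℝ} (hW : WOK N W) :
    ∫⁻ z in UH, ENNReal.ofReal (W z * (z.im ^ 2)⁻¹) < ⊤ := by
  obtain ⟨G, hG⟩ := hW.supp
  have hm : ∀ g : SL(2, ℤ), MeasurableSet (mob g '' SB) := fun g =>
    padj_SB.image_of_continuousOn_injOn ((unf_continuousOn g).mono Lib.SB_sub_UH)
      ((unf_injOn g).mono Lib.SB_sub_UH)
  have h1 : ∀ z ∈ UH, ENNReal.ofReal (W z * (z.im ^ 2)⁻¹) ≤
      ∑ g ∈ G, (mob g '' SB).indicator (fun z => ENNReal.ofReal ((z.im ^ 2)⁻¹)) z := by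
    intro z hz
    by_cases h0 : W z = 0
    · rw [h0]; simp
    · obtain ⟨g, hg, w, hw, hw1, hw2, rfl⟩ := hG z h0
      have hwS : w ∈ SB := by
        refine ⟨hw1, ?_⟩
        have h3 : 0 < w.im := hw
        have h4 : 1 ≤ Complex.normSq w := by
          rw [Complex.normSq_eq_norm_sq]; nlinarith
        rw [Complex.normSq_apply] at h4
        have h5 : w.re * w.re ≤ 1 / 4 := by
          have := abs_le.mp hw1
          nlinarith
        nlinarith
      refine le_trans ?_ (Finset.single_le_sum (f := fun g' => (mob g' '' SB).indicator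
        (fun z => ENNReal.ofReal ((z.im ^ 2)⁻¹)) (mob g w)) (fun _ _ => zero_le) hg)
      rw [Set.indicator_of_mem (show mob g w ∈ mob g '' SB from ⟨w, hwS, rfl⟩)]
      apply ENNReal.ofReal_le_ofReal
      exact mul_le_of_le_one_left (by positivity) (hW.le_one _)
  refine lt_of_le_of_lt (setLIntegral_mono' unf_measSet h1) ?_
  rw [lintegral_finset_sum']
  · refine ENNReal.sum_lt_top.2 fun g _ => ?_
    refine lt_of_le_of_lt (setLIntegral_le_lintegral _ _) ?_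
    rw [lintegral_indicator (hm g), unf_lint g padj_SB Lib.SB_sub_UH]
    refine lt_of_le_of_lt (le_of_eq ?_) (padj_box hNR)
    refine setLIntegral_congr_fun padj_SB fun w hw => ?_
    have hwU := Lib.SB_sub_UH hw
    have hw0 : w.im ≠ 0 := ne_of_gt hwU
    have hj : ‖jj g w‖ ≠ 0 := norm_ne_zero_iff.mpr (Lib.jj_ne g hwU)
    show ENNReal.ofReal ((‖jj g w‖ ^ 4)⁻¹) * ENNReal.ofReal (((mob g w).im ^ 2)⁻¹) = _
    rw [← ENNReal.ofReal_mul (by positivity), Lib.mob_im g hwU]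
    congr 1
    field_simp
  · intro g _
    refine (Measurable.indicator ?_ (hm g)).aemeasurable
    exact ((Complex.measurable_im.pow_const 2).inv).ennreal_ofReal

/-! ### the terms -/

noncomputable def padT {N l : ℕ} (W : ℂ → ℝ) (b b' : ℕ → ℂ) (A : PadO N l) (z : ℂ) : ℂ :=
  (W z : ℂ) * (W (padM A z) : ℂ) * ((l : ℂ) / (padJ A z) ^ 2 * qs b (padM A z)) *
    (starRingEnd ℂ) (qs b' z)

theorem padj_qsM (hQ : ST_QDIF) {N l : ℕ} (hN : 1 ≤ N) (hl : 0 < l) {b : ℕ → ℂ} (hb : Cusp N b)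
    (A : PadO N l) : AEStronglyMeasurable (fun z => qs b (padM A z)) (volume.restrict UH) := by
  refine ContinuousOn.aestronglyMeasurable ?_ unf_measSet
  exact (hQ N b hN hb).2.1.continuousOn.comp
    (fun z hz => (padM_deriv hl A hz).continuousAt.continuousWithinAt)
    (fun z hz => padM_mem hl A hz)

theorem padj_qs (hQ : ST_QDIF) {N : ℕ} (hN : 1 ≤ N) {b : ℕ → ℂ} (hb : Cusp N b) :
    AEStronglyMeasurable (qs b) (volume.restrict UH) :=
  ContinuousOn.aestronglyMeasurable (hQ N b hN hb).2.1.continuousOn unf_measSet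

theorem padj_measT (hQ : ST_QDIF) {N l : ℕ} (hN : 1 ≤ N) (hl : 0 < l) {W : ℂ → ℝ} (hW : WOK N W)
    {b b' : ℕ → ℂ} (hb : Cusp N b) (hb' : Cusp N b') (A : PadO N l) :
    AEStronglyMeasurable (padT W b b' A) (volume.restrict UH) := by
  have h1 : Measurable fun z => (W z : ℂ) := Complex.measurable_ofReal.comp hW.meas
  have h2 : Measurable fun z => (W (padM A z) : ℂ) :=
    Complex.measurable_ofReal.comp (hW.meas.comp (padj_meas_M A))
  have h3 : Measurable fun z => (l : ℂ) / (padJ A z) ^ 2 :=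
    measurable_const.div ((padj_meas_J A).pow_const 2)
  have h4 : AEStronglyMeasurable (fun z => (starRingEnd ℂ) (qs b' z)) (volume.restrict UH) :=
    Complex.continuous_conj.comp_aestronglyMeasurable (padj_qs hQ hN hb')
  exact ((h1.aestronglyMeasurable.mul h2.aestronglyMeasurable).mul
    (h3.aestronglyMeasurable.mul (padj_qsM hQ hN hl hb A))).mul h4

theorem padT_F {N l : ℕ} (hl : 0 < l) (W : ℂ → ℝ) {b b' : ℕ → ℂ} (hb : Cusp N b)
    (u : {t // t ∈ Tn l} × CongruenceSubgroup.Gamma0 N) {z : ℂ} (hz : z ∈ UH) :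
    (l : ℂ) / (padJ (padF N hl u) z) ^ 2 * qs b (padM (padF N hl u) z) =
      (l : ℂ) / (u.1.1.2.2 : ℂ) ^ 2 * qs b (act u.1.1 z) ∧
    padT W b b' (padF N hl u) z = ((W z : ℂ) * ((l : ℂ) / (u.1.1.2.2 : ℂ) ^ 2 * qs b (act u.1.1 z)) *
      (starRingEnd ℂ) (qs b' z)) * (W (mob u.2.1 (act u.1.1 z)) : ℂ) := by
  have hw := padj_act_mem hl u.1.2 hz
  have hj := Lib.jj_ne u.2.1 hw
  have hd : ((u.1.1.2.2 : ℕ) : ℂ) ≠ 0 := by exact_mod_cast (padj_Tn hl u.1.2).2.2.ne'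
  have e : (l : ℂ) / (padJ (padF N hl u) z) ^ 2 * qs b (padM (padF N hl u) z) =
      (l : ℂ) / (u.1.1.2.2 : ℂ) ^ 2 * qs b (act u.1.1 z) := by
    rw [padF_J, padF_M hl u hz, Lib.qs_mob hb u.2.2 hw]
    field_simp
  refine ⟨e, ?_⟩
  unfold padT
  rw [e, padF_M hl u hz]
  ring

theorem padj_hecke {N l : ℕ} (hl : l.Prime) {b : ℕ → ℂ} (hb : Cusp N b) {z : ℂ} (hz : z ∈ UH) :
    qs (Tl l b) z = ∑ t : {t // t ∈ Tn l}, (l : ℂ) / (t.1.2.2 : ℂ) ^ 2 * qs b (act t.1 z) := by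
  have h1 : qs (Tl l b) z = heckeG l (qs b) z := (hecke_hasSum hl hb hz).tsum_eq
  rw [h1, heckeG, ← Finset.sum_coe_sort]
  rfl

theorem padj_sumT (hH : ST_HERM) {N l : ℕ} (hl : l.Prime) (hlN : ¬ l ∣ N) {W : ℂ → ℝ}
    (hW : WOK N W) {b b' : ℕ → ℂ} (hb : Cusp N b) {z : ℂ} (hz : z ∈ UH) :
    ∑' A : PadO N l, padT W b b' A z = (W z : ℂ) * (qs (Tl l b) z * (starRingEnd ℂ) (qs b' z)) := by
  have h := padj_hasSum hH hl hlN hW hz (fun A => padT W b b' A z)
    (fun t => (W z : ℂ) * ((l : ℂ) / (t.1.2.2 : ℂ) ^ 2 * qs b (act t.1 z)) *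
      (starRingEnd ℂ) (qs b' z)) (fun u => (padT_F hl.pos W hb u hz).2)
  rw [h.tsum_eq, padj_hecke hl hb hz, ← Finset.sum_mul, ← Finset.mul_sum]
  ring

theorem padj_bd {l : ℕ} (hl : 0 < l) {b : ℕ → ℂ} {B : ℝ}
    (hB : ∀ τ : ℂ, 0 < τ.im → τ.im * ‖qs b τ‖ ≤ B) (t : {t // t ∈ Tn l}) {z : ℂ} (hz : z ∈ UH) :
    ‖(l : ℂ) / (t.1.2.2 : ℂ) ^ 2 * qs b (act t.1 z)‖ ≤ B / z.im := by
  have hz' : 0 < z.im := hz
  obtain ⟨had, ha, hd⟩ := padj_Tn hl t.2
  have ha' : (0 : ℝ) < t.1.1 := by exact_mod_cast ha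
  have hd' : (0 : ℝ) < t.1.2.2 := by exact_mod_cast hd
  have had' : (l : ℝ) = (t.1.1 : ℝ) * (t.1.2.2 : ℝ) := by exact_mod_cast had.symm
  have h1 := hB (act t.1 z) (padj_act_mem hl t.2 hz)
  rw [padj_act_im] at h1
  rw [le_div_iff₀ hz', norm_mul, norm_div, norm_pow, Complex.norm_natCast, Complex.norm_natCast, had']
  refine le_trans (le_of_eq ?_) h1
  field_simp

theorem padj_finT (hH : ST_HERM) (hNR : ST_NRM) (hQ : ST_QDIF) {N l : ℕ} (hN : 1 ≤ N)
    (hl : l.Prime) (hlN : ¬ l ∣ N) {W : ℂ → ℝ} (hW : WOK N W) {b b' : ℕ → ℂ} (hb : Cusp N b)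
    (hb' : Cusp N b') :
    ∑' A : PadO N l, ∫⁻ z in UH, ‖padT W b b' A z‖ₑ ≠ ⊤ := by
  have := padj_countable N l
  rw [← lintegral_tsum (fun A => (padj_measT hQ hN hl.pos hW hb hb' A).enorm)]
  obtain ⟨B, hB⟩ := hb.bdd
  obtain ⟨B', hB'⟩ := hb'.bdd
  have hB0 : 0 ≤ B := by
    have h := hB I (by simp)
    rw [Complex.I_im, one_mul] at h
    exact (norm_nonneg _).trans h
  have hB0' : 0 ≤ B' := by
    have h := hB' I (by simp)
    rw [Complex.I_im, one_mul] at h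
    exact (norm_nonneg _).trans h
  have key : ∀ z ∈ UH, ∑' A : PadO N l, ‖padT W b b' A z‖ₑ ≤
      ENNReal.ofReal ((Fintype.card {t // t ∈ Tn l} : ℝ) * (B * B')) *
        ENNReal.ofReal (W z * (z.im ^ 2)⁻¹) := by
    intro z hz
    have hz' : 0 < z.im := hz
    rw [padj_tsum hH hl hlN hW hz (fun A => ‖padT W b b' A z‖ₑ)
      (fun t => ENNReal.ofReal (W z * ‖(l : ℂ) / (t.1.2.2 : ℂ) ^ 2 * qs b (act t.1 z)‖ * ‖qs b' z‖))]
    · have h1 : ∀ t ∈ (Finset.univ : Finset {t // t ∈ Tn l}),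
          ENNReal.ofReal (W z * ‖(l : ℂ) / (t.1.2.2 : ℂ) ^ 2 * qs b (act t.1 z)‖ * ‖qs b' z‖) ≤
          ENNReal.ofReal (B * B' * (W z * (z.im ^ 2)⁻¹)) := by
        intro t _
        apply ENNReal.ofReal_le_ofReal
        have h2 := padj_bd hl.pos hB t hz
        have h3 : ‖qs b' z‖ ≤ B' / z.im := by
          rw [le_div_iff₀ hz', mul_comm]
          exact hB' z hz'
        calc W z * ‖(l : ℂ) / (t.1.2.2 : ℂ) ^ 2 * qs b (act t.1 z)‖ * ‖qs b' z‖
            ≤ W z * (B / z.im) * (B' / z.im) := by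
              have hw := hW.nonneg z
              have hb0 : 0 ≤ B / z.im := div_nonneg hB0 hz'.le
              gcongr
          _ = B * B' * (W z * (z.im ^ 2)⁻¹) := by field_simp
      refine (Finset.sum_le_sum h1).trans ?_
      rw [Finset.sum_const, nsmul_eq_mul, ← ENNReal.ofReal_mul (by positivity),
        show ((Finset.univ : Finset {t // t ∈ Tn l}).card : ℝ≥0∞) =
          ENNReal.ofReal (Fintype.card {t // t ∈ Tn l} : ℝ) by
            rw [ENNReal.ofReal_natCast]; rfl, ← ENNReal.ofReal_mul (by positivity)]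
      apply ENNReal.ofReal_le_ofReal
      apply le_of_eq
      ring
    · intro u
      rw [← ofReal_norm_eq_enorm, (padT_F hl.pos W (b' := b') hb u hz).2, norm_mul, norm_mul,
        norm_mul, Complex.norm_real, Complex.norm_real, Real.norm_eq_abs, Real.norm_eq_abs,
        abs_of_nonneg (hW.nonneg _), abs_of_nonneg (hW.nonneg _), RCLike.norm_conj,
        ENNReal.ofReal_mul (mul_nonneg (mul_nonneg (hW.nonneg _) (norm_nonneg _)) (norm_nonneg _))]
  refine ne_of_lt (lt_of_le_of_lt (setLIntegral_mono' unf_measSet key) ?_)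
  rw [lintegral_const_mul' _ _ ENNReal.ofReal_ne_top]
  exact ENNReal.mul_lt_top ENNReal.ofReal_lt_top (padj_fin hNR hW)

theorem padj_L1 (hH : ST_HERM) (hNR : ST_NRM) (hQ : ST_QDIF) {N l : ℕ} (hN : 1 ≤ N)
    (hl : l.Prime) (hlN : ¬ l ∣ N) {W : ℂ → ℝ} (hW : WOK N W) {b b' : ℕ → ℂ} (hb : Cusp N b)
    (hb' : Cusp N b') :
    pet W (Tl l b) b' = ∑' A : PadO N l, ∫ z in UH, padT W b b' A z := by
  have := padj_countable N l
  rw [← integral_tsum (fun A => padj_measT hQ hN hl.pos hW hb hb' A)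
    (padj_finT hH hNR hQ hN hl hlN hW hb hb')]
  unfold pet
  exact setIntegral_congr_fun unf_measSet fun z hz => (padj_sumT hH hl hlN hW hb hz).symm

theorem padj_L2 {N l : ℕ} (hl : 0 < l) (W : ℂ → ℝ) (b b' : ℕ → ℂ) (A : PadO N l) :
    ∫ z in UH, padT W b b' A z = (starRingEnd ℂ) (∫ z in UH, padT W b' b (padA N l A) z) := by
  rw [padj_int hl (padA N l A) (padT W b b' A), ← integral_conj]
  refine setIntegral_congr_fun unf_measSet fun w hw => ?_
  have hz := padM_mem hl (padA N l A) hw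
  have e1 : padM A (padM (padA N l A) w) = w := by
    have := padM_adj hl (padA N l A) hw
    rwa [padA_padA] at this
  have e2 : padJ A (padM (padA N l A) w) * padJ (padA N l A) w = (l : ℂ) := by
    have := padJ_adj hl (padA N l A) hw
    rwa [padA_padA] at this
  have hj := padJ_ne hl (padA N l A) hw
  have hk := padJ_ne hl A hz
  have hl' : (l : ℂ) ≠ 0 := by exact_mod_cast hl.ne'
  show ((l : ℝ) ^ 2 * (‖padJ (padA N l A) w‖ ^ 4)⁻¹) • padT W b b' A (padM (padA N l A) w) =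
    (starRingEnd ℂ) (padT W b' b (padA N l A) w)
  unfold padT
  rw [e1]
  generalize padM (padA N l A) w = z at *
  generalize padJ (padA N l A) w = j at *
  generalize padJ A z = k at *
  have hjc : (starRingEnd ℂ) j ≠ 0 := (map_ne_zero _).2 hj
  have hn : ((‖j‖ ^ 4 : ℝ) : ℂ) = j ^ 2 * (starRingEnd ℂ) j ^ 2 := by
    have h1 : ((‖j‖ ^ 2 : ℝ) : ℂ) = j * (starRingEnd ℂ) j := by
      rw [Complex.mul_conj, Complex.normSq_eq_norm_sq]
    have h2 : (‖j‖ ^ 4 : ℝ) = (‖j‖ ^ 2) ^ 2 := by ring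
    rw [h2, Complex.ofReal_pow, h1]
    ring
  rw [Complex.real_smul]
  push_cast
  rw [show (‖j‖ : ℂ) ^ 4 = ((‖j‖ ^ 4 : ℝ) : ℂ) by push_cast; ring, hn]
  simp only [map_mul, map_div₀, map_pow, Complex.conj_ofReal, Complex.conj_natCast,
    Complex.conj_conj]
  rw [← e2]
  field_simp

theorem padj_self (hH : ST_HERM) (hNR : ST_NRM) (hQ : ST_QDIF) {N l : ℕ} (hN : 1 ≤ N)
    (hl : l.Prime) (hlN : ¬ l ∣ N) {W : ℂ → ℝ} (hW : WOK N W) {b b' : ℕ → ℂ} (hb : Cusp N b)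
    (hb' : Cusp N b') : pet W (Tl l b) b' = pet W b (Tl l b') := by
  rw [padj_L1 hH hNR hQ hN hl hlN hW hb hb', tsum_congr (fun A => padj_L2 hl.pos W b b' A),
    (padA N l).tsum_eq (fun A => (starRingEnd ℂ) (∫ z in UH, padT W b' b A z)),
    ← Complex.conj_tsum, ← padj_L1 hH hNR hQ hN hl hlN hW hb' hb]
  unfold pet
  rw [← integral_conj]
  refine setIntegral_congr_fun unf_measSet fun z _ => ?_
  simp only [map_mul, Complex.conj_ofReal, Complex.conj_conj]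
  ring

/-! ### the norm bound -/

noncomputable def padN (W : ℂ → ℝ) (b : ℕ → ℂ) : ℝ≥0∞ :=
  ∫⁻ z in UH, ENNReal.ofReal (W z * ‖qs b z‖ ^ 2)

theorem padj_re {N : ℕ} {W : ℂ → ℝ} (hW : WOK N W) {b : ℕ → ℂ}
    (hm : AEStronglyMeasurable (qs b) (volume.restrict UH)) :
    (pet W b b).re = (padN W b).toReal := by
  have h1 : pet W b b = ((∫ z in UH, W z * ‖qs b z‖ ^ 2 : ℝ) : ℂ) := by
    have h0 : ∫ z in UH, ((W z * ‖qs b z‖ ^ 2 : ℝ) : ℂ) =
      ((∫ z in UH, W z * ‖qs b z‖ ^ 2 : ℝ) : ℂ) := integral_ofReal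
    rw [← h0]
    unfold pet
    refine setIntegral_congr_fun unf_measSet fun z _ => ?_
    show (W z : ℂ) * (qs b z * (starRingEnd ℂ) (qs b z)) = ((W z * ‖qs b z‖ ^ 2 : ℝ) : ℂ)
    rw [Complex.mul_conj, Complex.normSq_eq_norm_sq]
    push_cast
    rfl
  rw [h1, Complex.ofReal_re, padN]
  refine integral_eq_lintegral_of_nonneg_ae
    (Eventually.of_forall fun z => mul_nonneg (hW.nonneg z) (by positivity)) ?_
  exact hW.meas.aestronglyMeasurable.mul (hm.norm.pow 2)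

theorem padj_Nfin (hNR : ST_NRM) {N : ℕ} {W : ℂ → ℝ} (hW : WOK N W) {b : ℕ → ℂ} (hb : Cusp N b) :
    padN W b < ⊤ := by
  obtain ⟨B, hB⟩ := hb.bdd
  have key : ∀ z ∈ UH, ENNReal.ofReal (W z * ‖qs b z‖ ^ 2) ≤
      ENNReal.ofReal (B ^ 2) * ENNReal.ofReal (W z * (z.im ^ 2)⁻¹) := by
    intro z hz
    have hz' : 0 < z.im := hz
    rw [← ENNReal.ofReal_mul (by positivity)]
    apply ENNReal.ofReal_le_ofReal
    have h3 : ‖qs b z‖ ≤ B / z.im := by
      rw [le_div_iff₀ hz', mul_comm]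
      exact hB z hz'
    calc W z * ‖qs b z‖ ^ 2 ≤ W z * (B / z.im) ^ 2 := by
          gcongr
          exact hW.nonneg z
      _ = B ^ 2 * (W z * (z.im ^ 2)⁻¹) := by field_simp
  refine lt_of_le_of_lt (setLIntegral_mono' unf_measSet key) ?_
  rw [lintegral_const_mul' _ _ ENNReal.ofReal_ne_top]
  exact ENNReal.mul_lt_top ENNReal.ofReal_lt_top (padj_fin hNR hW)

theorem padj_card {l : ℕ} (hl : l.Prime) : Fintype.card {t // t ∈ Tn l} = l + 1 := by
  rw [Fintype.card_coe, hecke_Tn hl, Finset.card_insert_of_notMem, Finset.card_image_of_injective,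
    Finset.card_range]
  · intro i j hij
    simpa using hij
  · simp only [Finset.mem_image, Finset.mem_range, Prod.mk.injEq, not_exists, not_and]
    intro j _ h1 _ h3
    exact absurd h3 hl.one_lt.ne'

theorem padj_bound (hH : ST_HERM) (hQ : ST_QDIF) {N l : ℕ} (hN : 1 ≤ N)
    (hl : l.Prime) (hlN : ¬ l ∣ N) {W : ℂ → ℝ} (hW : WOK N W) {b : ℕ → ℂ} (hb : Cusp N b) :
    padN W (Tl l b) ≤ ((l : ℝ≥0∞) + 1) ^ 2 * padN W b := by
  have := padj_countable N l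
  have hcard := padj_card hl
  have hcardE : ((Finset.univ : Finset {t // t ∈ Tn l}).card : ℝ≥0∞) = (l : ℝ≥0∞) + 1 := by
    rw [Finset.card_univ, hcard]; push_cast; rfl
  have hmW : ∀ A : PadO N l, Measurable fun z => W (padM A z) := fun A =>
    hW.meas.comp (padj_meas_M A)
  have key : ∀ z ∈ UH, ENNReal.ofReal (W z * ‖qs (Tl l b) z‖ ^ 2) ≤
      ((l : ℝ≥0∞) + 1) * ∑' A : PadO N l,
        ENNReal.ofReal (W z * ‖(l : ℂ) / (padJ A z) ^ 2 * qs b (padM A z)‖ ^ 2) *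
          ENNReal.ofReal (W (padM A z)) := by
    intro z hz
    rw [padj_tsum hH hl hlN hW hz _
      (fun t => ENNReal.ofReal (W z * ‖(l : ℂ) / (t.1.2.2 : ℂ) ^ 2 * qs b (act t.1 z)‖ ^ 2))
      (fun u => by rw [(padT_F hl.pos W (b' := b) hb u hz).1, padF_M hl.pos u hz])]
    rw [← ENNReal.ofReal_sum_of_nonneg
      (fun t _ => mul_nonneg (hW.nonneg z) (by positivity))]
    rw [show ((l : ℝ≥0∞) + 1) = ENNReal.ofReal ((l : ℝ) + 1) by
      rw [ENNReal.ofReal_add (by positivity) (by norm_num), ENNReal.ofReal_natCast,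
        ENNReal.ofReal_one], ← ENNReal.ofReal_mul (by positivity)]
    apply ENNReal.ofReal_le_ofReal
    rw [padj_hecke hl hb hz, ← Finset.mul_sum]
    have h1 : ‖∑ t : {t // t ∈ Tn l}, (l : ℂ) / (t.1.2.2 : ℂ) ^ 2 * qs b (act t.1 z)‖ ^ 2 ≤
        ((l : ℝ) + 1) * ∑ t : {t // t ∈ Tn l}, ‖(l : ℂ) / (t.1.2.2 : ℂ) ^ 2 * qs b (act t.1 z)‖ ^ 2 := by
      have h2 := sq_sum_le_card_mul_sum_sq (s := (Finset.univ : Finset {t // t ∈ Tn l}))
        (f := fun t => ‖(l : ℂ) / (t.1.2.2 : ℂ) ^ 2 * qs b (act t.1 z)‖)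
      rw [Finset.card_univ, hcard] at h2
      push_cast at h2
      refine le_trans ?_ h2
      gcongr
      exact norm_sum_le _ _
    calc W z * ‖∑ t : {t // t ∈ Tn l}, (l : ℂ) / (t.1.2.2 : ℂ) ^ 2 * qs b (act t.1 z)‖ ^ 2
        ≤ W z * (((l : ℝ) + 1) *
          ∑ t : {t // t ∈ Tn l}, ‖(l : ℂ) / (t.1.2.2 : ℂ) ^ 2 * qs b (act t.1 z)‖ ^ 2) :=
          mul_le_mul_of_nonneg_left h1 (hW.nonneg z)
      _ = _ := by ring
  refine (setLIntegral_mono' unf_measSet key).trans ?_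
  have hl1 : ((l : ℝ≥0∞) + 1) ≠ ⊤ := by simp
  rw [lintegral_const_mul' _ _ hl1, pow_two, mul_assoc]
  gcongr
  rw [lintegral_tsum]
  · have h2 : ∀ A : PadO N l, ∫⁻ z in UH,
        ENNReal.ofReal (W z * ‖(l : ℂ) / (padJ A z) ^ 2 * qs b (padM A z)‖ ^ 2) *
          ENNReal.ofReal (W (padM A z)) =
        ∫⁻ w in UH, ENNReal.ofReal (W (padM (padA N l A) w)) *
          ENNReal.ofReal (W w * ‖qs b w‖ ^ 2) := by
      intro A
      rw [padj_lint hl.pos A (fun w => ENNReal.ofReal (W (padM (padA N l A) w)) *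
          ENNReal.ofReal (W w * ‖qs b w‖ ^ 2))]
      refine setLIntegral_congr_fun unf_measSet fun z hz => ?_
      rw [padM_adj hl.pos A hz, ← ENNReal.ofReal_mul (hW.nonneg z), ← ENNReal.ofReal_mul
        (show (0 : ℝ) ≤ (l : ℝ) ^ 2 * (‖padJ A z‖ ^ 4)⁻¹ by positivity), ← ENNReal.ofReal_mul
        (show (0 : ℝ) ≤ W z * ‖(l : ℂ) / (padJ A z) ^ 2 * qs b (padM A z)‖ ^ 2 from
          mul_nonneg (hW.nonneg _) (by positivity))]
      congr 1
      have hj : ‖padJ A z‖ ≠ 0 := norm_ne_zero_iff.mpr (padJ_ne hl.pos A hz)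
      rw [norm_mul, norm_div, norm_pow, Complex.norm_natCast]
      field_simp
    rw [tsum_congr h2, ← lintegral_tsum]
    · refine le_of_eq ?_
      unfold padN
      rw [← lintegral_const_mul' _ _ hl1]
      refine setLIntegral_congr_fun unf_measSet fun w hw => ?_
      rw [ENNReal.tsum_mul_right]
      congr 1
      rw [(padA N l).tsum_eq (fun A => ENNReal.ofReal (W (padM A w)))]
      rw [padj_tsum hH hl hlN hW hw (fun A => ENNReal.ofReal (W (padM A w))) (fun _ => 1)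
        (fun u => by rw [padF_M hl.pos u hw, one_mul])]
      rw [Finset.sum_const, nsmul_eq_mul, hcardE, mul_one]
    · intro A
      exact ((hmW _).ennreal_ofReal.aemeasurable).mul
        ((hW.meas.aemeasurable.mul ((padj_qs hQ hN hb).norm.aemeasurable.pow_const 2)).ennreal_ofReal)
  · intro A
    have h3 : Measurable fun z => (l : ℂ) / (padJ A z) ^ 2 :=
      measurable_const.div ((padj_meas_J A).pow_const 2)
    exact ((hW.meas.aemeasurable.mul
      (((h3.aestronglyMeasurable.mul (padj_qsM hQ hN hl.pos hb A)).norm.aemeasurable).pow_const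
        2)).ennreal_ofReal).mul ((hmW A).ennreal_ofReal.aemeasurable)

/-- **Module PADJ.** -/
theorem st_PADJ (hH : ST_HERM) (hNR : ST_NRM) (hQ : ST_QDIF) (hHe : ST_HECKE) : ST_PADJ := by
  intro N l W hN hW hl hlN b b' hb hb'
  refine ⟨padj_self hH hNR hQ hN hl hlN hW hb hb', ?_⟩
  have hTb := hHe N l b hN hl hlN hb
  rw [padj_re hW (padj_qs hQ hN hTb), padj_re hW (padj_qs hQ hN hb)]
  have h1 := padj_bound hH hQ hN hl hlN hW hb
  have h2 := ENNReal.toReal_mono (ENNReal.mul_ne_top (by simp) (padj_Nfin hNR hW hb).ne) h1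
  refine h2.trans (le_of_eq ?_)
  rw [ENNReal.toReal_mul, ENNReal.toReal_pow, ENNReal.toReal_add (by simp) (by simp)]
  simp

end Pool.Agent.Helper96.MP
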