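import Pool.Agent.Helper96.MP.Defs

set_option autoImplicit false

namespace Pool.Agent.Helper96.MP

open Complex MeasureTheory Filter Topology Set
open scoped MatrixGroups

theorem per_1d (f f' p : ℝ → ℝ) (a b x x' ε : ℝ) (hx : x ∈ Icc a b) (hx' : x' ∈ Icc a b)
    (hε : 0 < ε) (hf : ∀ s ∈ Icc a b, HasDerivAt f (f' s) s) (hc : ContinuousOn f' (Icc a b))
    (hp : ContinuousOn p (Icc a b)) (hfp : ∀ s ∈ Icc a b, f' s ^ 2 ≤ p s) :
    |f x' - f x| ≤ (b - a) * ε + (∫ s in Icc a b, p s) / (4 * ε) := by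
  have hab : a ≤ b := hx.1.trans hx.2
  have hsub : uIcc x x' ⊆ Icc a b := by
    rw [← uIcc_of_le hab]
    exact uIcc_subset_uIcc (by rw [uIcc_of_le hab]; exact hx) (by rw [uIcc_of_le hab]; exact hx')
  have h1 : ∫ s in x..x', f' s = f x' - f x := by
    refine intervalIntegral.integral_eq_sub_of_hasDerivAt (fun s hs => hf s (hsub hs)) ?_
    exact (hc.mono hsub).intervalIntegrable
  rw [← h1, ← Real.norm_eq_abs]
  have hsub2 : uIoc x x' ⊆ Icc a b := uIoc_subset_uIcc.trans hsub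
  have hint : IntegrableOn (fun s => ‖f' s‖) (Icc a b) := (hc.norm).integrableOn_compact isCompact_Icc
  have hintp : IntegrableOn p (Icc a b) := hp.integrableOn_compact isCompact_Icc
  refine (intervalIntegral.norm_integral_le_integral_norm_uIoc).trans ?_
  refine (setIntegral_mono_set hint (ae_of_all _ fun s => norm_nonneg _)
    (ae_of_all _ hsub2)).trans ?_
  have h2 : ∫ s in Icc a b, ‖f' s‖ ≤ ∫ s in Icc a b, (ε + p s / (4 * ε)) := by
    refine setIntegral_mono_on hint (by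
      refine Integrable.add ?_ (hintp.div_const _)
      exact integrableOn_const (by simp) (by simp)) measurableSet_Icc fun s hs => ?_
    have h3 := hfp s hs
    rw [Real.norm_eq_abs]
    have h4 : 0 ≤ (2 * ε - |f' s|) ^ 2 := sq_nonneg _
    have h5 : |f' s| ^ 2 = f' s ^ 2 := sq_abs _
    have h6 : |f' s| * (4 * ε) ≤ 4 * ε ^ 2 + p s := by nlinarith
    have h7 : |f' s| ≤ (4 * ε ^ 2 + p s) / (4 * ε) := by
      rw [le_div_iff₀ (by positivity)]; exact h6
    refine h7.trans (le_of_eq ?_)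
    field_simp
  refine h2.trans (le_of_eq ?_)
  rw [integral_add (by exact integrableOn_const (by simp) (by simp)) (hintp.div_const _),
    setIntegral_const, integral_div]
  simp [Real.volume_real_Icc_of_le hab, smul_eq_mul]

theorem per_UH_open : IsOpen UH := isOpen_lt continuous_const Complex.continuous_im

theorem per_jj_ne (g : SL(2, ℤ)) (z : ℂ) (hz : z ∈ UH) : jj g z ≠ 0 := by
  intro h
  have hz' : 0 < z.im := hz
  have him : (jj g z).im = ((g 1 0 : ℤ) : ℝ) * z.im := by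
    simp [jj]
  have hre : (jj g z).re = ((g 1 0 : ℤ) : ℝ) * z.re + ((g 1 1 : ℤ) : ℝ) := by
    simp [jj]
  rw [h] at him hre
  simp only [Complex.zero_im, Complex.zero_re] at him hre
  have h1 : ((g 1 0 : ℤ) : ℝ) = 0 := by
    rcases mul_eq_zero.1 him.symm with h | h
    · exact h
    · exact absurd h hz'.ne'
  rw [h1] at hre
  have h2 : ((g 1 1 : ℤ) : ℝ) = 0 := by linarith
  have h3 : g 1 0 = 0 := by exact_mod_cast h1
  have h4 : g 1 1 = 0 := by exact_mod_cast h2
  have hdet := g.det_coe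
  rw [Matrix.det_fin_two] at hdet
  simp [h3, h4] at hdet

theorem per_mob_im (g : SL(2, ℤ)) (z : ℂ) (hz : z ∈ UH) : mob g z ∈ UH := by
  have hz' : 0 < z.im := hz
  have hj := per_jj_ne g z hz
  have hdet := g.det_coe
  rw [Matrix.det_fin_two] at hdet
  have hdet' : ((g 0 0 : ℤ) : ℝ) * ((g 1 1 : ℤ) : ℝ) - ((g 0 1 : ℤ) : ℝ) * ((g 1 0 : ℤ) : ℝ) = 1 := by
    exact_mod_cast hdet
  have hmob : mob g z = (((g 0 0 : ℤ) : ℂ) * z + ((g 0 1 : ℤ) : ℂ)) / jj g z := rfl
  change 0 < (mob g z).im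
  rw [hmob, Complex.div_im]
  have h1 : ((((g 0 0 : ℤ) : ℂ) * z + ((g 0 1 : ℤ) : ℂ))).im = ((g 0 0 : ℤ) : ℝ) * z.im := by simp
  have h2 : ((((g 0 0 : ℤ) : ℂ) * z + ((g 0 1 : ℤ) : ℂ))).re =
    ((g 0 0 : ℤ) : ℝ) * z.re + ((g 0 1 : ℤ) : ℝ) := by simp
  have h3 : (jj g z).im = ((g 1 0 : ℤ) : ℝ) * z.im := by simp [jj]
  have h4 : (jj g z).re = ((g 1 0 : ℤ) : ℝ) * z.re + ((g 1 1 : ℤ) : ℝ) := by simp [jj]
  rw [h1, h2, h3, h4, ← sub_div]
  refine div_pos ?_ (Complex.normSq_pos.2 hj)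
  have : ((g 0 0 : ℤ) : ℝ) * z.im * (((g 1 0 : ℤ) : ℝ) * z.re + ((g 1 1 : ℤ) : ℝ)) -
      (((g 0 0 : ℤ) : ℝ) * z.re + ((g 0 1 : ℤ) : ℝ)) * (((g 1 0 : ℤ) : ℝ) * z.im) = z.im := by
    linear_combination z.im * hdet'
  rw [this]
  exact hz'

theorem per_mob_deriv (g : SL(2, ℤ)) (z : ℂ) (hz : z ∈ UH) :
    HasDerivAt (mob g) ((jj g z ^ 2)⁻¹) z := by
  have hj := per_jj_ne g z hz
  have hdet := g.det_coe
  rw [Matrix.det_fin_two] at hdet
  have hdet' : ((g 0 0 : ℤ) : ℂ) * ((g 1 1 : ℤ) : ℂ) - ((g 0 1 : ℤ) : ℂ) * ((g 1 0 : ℤ) : ℂ) = 1 := by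
    exact_mod_cast hdet
  have h1 : HasDerivAt (fun z : ℂ => ((g 0 0 : ℤ) : ℂ) * z + ((g 0 1 : ℤ) : ℂ)) ((g 0 0 : ℤ) : ℂ) z := by
    simpa using ((hasDerivAt_id z).const_mul ((g 0 0 : ℤ) : ℂ)).add_const ((g 0 1 : ℤ) : ℂ)
  have h2 : HasDerivAt (fun z : ℂ => ((g 1 0 : ℤ) : ℂ) * z + ((g 1 1 : ℤ) : ℂ)) ((g 1 0 : ℤ) : ℂ) z := by
    simpa using ((hasDerivAt_id z).const_mul ((g 1 0 : ℤ) : ℂ)).add_const ((g 1 1 : ℤ) : ℂ)
  have h3 := h1.div h2 hj
  have h4 : (((g 0 0 : ℤ) : ℂ) * (((g 1 0 : ℤ) : ℂ) * z + ((g 1 1 : ℤ) : ℂ)) -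
      (((g 0 0 : ℤ) : ℂ) * z + ((g 0 1 : ℤ) : ℂ)) * ((g 1 0 : ℤ) : ℂ)) /
      (((g 1 0 : ℤ) : ℂ) * z + ((g 1 1 : ℤ) : ℂ)) ^ 2 = (jj g z ^ 2)⁻¹ := by
    rw [show (((g 0 0 : ℤ) : ℂ) * (((g 1 0 : ℤ) : ℂ) * z + ((g 1 1 : ℤ) : ℂ)) -
      (((g 0 0 : ℤ) : ℂ) * z + ((g 0 1 : ℤ) : ℂ)) * ((g 1 0 : ℤ) : ℂ)) = 1 by
        linear_combination hdet']
    rw [one_div]
    rfl
  rw [← h4]
  exact h3

theorem per_mob_inv (g : SL(2, ℤ)) (z : ℂ) (hz : z ∈ UH) : mob g⁻¹ (mob g z) = z := by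
  have hj := per_jj_ne g z hz
  have hdet := g.det_coe
  rw [Matrix.det_fin_two] at hdet
  have hdet' : ((g 0 0 : ℤ) : ℂ) * ((g 1 1 : ℤ) : ℂ) - ((g 0 1 : ℤ) : ℂ) * ((g 1 0 : ℤ) : ℂ) = 1 := by
    exact_mod_cast hdet
  have hinv : (↑(g⁻¹) : Matrix (Fin 2) (Fin 2) ℤ) = !![g 1 1, -g 0 1; -g 1 0, g 0 0] := by
    rw [Matrix.SpecialLinearGroup.coe_inv, Matrix.adjugate_fin_two]
  have e00 : g⁻¹ 0 0 = g 1 1 := by
    have := congrFun (congrFun hinv 0) 0; simpa using this
  have e01 : g⁻¹ 0 1 = -g 0 1 := by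
    have := congrFun (congrFun hinv 0) 1; simpa using this
  have e10 : g⁻¹ 1 0 = -g 1 0 := by
    have := congrFun (congrFun hinv 1) 0; simpa using this
  have e11 : g⁻¹ 1 1 = g 0 0 := by
    have := congrFun (congrFun hinv 1) 1; simpa using this
  unfold mob
  rw [e00, e01, e10, e11]
  unfold mo
  have hj' : ((g 1 0 : ℤ) : ℂ) * z + ((g 1 1 : ℤ) : ℂ) ≠ 0 := hj
  push_cast
  have h5 : -((g 1 0 : ℤ) : ℂ) * ((((g 0 0 : ℤ) : ℂ) * z + ((g 0 1 : ℤ) : ℂ)) /
      (((g 1 0 : ℤ) : ℂ) * z + ((g 1 1 : ℤ) : ℂ))) + ((g 0 0 : ℤ) : ℂ) =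
      1 / (((g 1 0 : ℤ) : ℂ) * z + ((g 1 1 : ℤ) : ℂ)) := by
    field_simp
    linear_combination hdet'
  have h6 : ((g 1 1 : ℤ) : ℂ) * ((((g 0 0 : ℤ) : ℂ) * z + ((g 0 1 : ℤ) : ℂ)) /
      (((g 1 0 : ℤ) : ℂ) * z + ((g 1 1 : ℤ) : ℂ))) + -((g 0 1 : ℤ) : ℂ) =
      z / (((g 1 0 : ℤ) : ℂ) * z + ((g 1 1 : ℤ) : ℂ)) := by
    rw [mul_div_assoc', div_add' _ _ _ hj', div_left_inj' hj']
    linear_combination z * hdet'
  rw [h5, h6, div_div_div_cancel_right₀ hj', div_one]

theorem per_re_null (X : Set ℝ) (hX : volume X = 0) : volume {z : ℂ | z.re ∈ X} = 0 := by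
  have hq : Measure.QuasiMeasurePreserving (fun z : ℂ => z.re) volume volume := by
    have h1 := Complex.volume_preserving_equiv_real_prod.quasiMeasurePreserving
    have h2 : Measure.QuasiMeasurePreserving (Prod.fst : ℝ × ℝ → ℝ) volume volume :=
      Measure.quasiMeasurePreserving_fst
    exact h2.comp h1
  exact hq.preimage_null hX

theorem per_im_null (X : Set ℝ) (hX : volume X = 0) : volume {z : ℂ | z.im ∈ X} = 0 := by
  have hq : Measure.QuasiMeasurePreserving (fun z : ℂ => z.im) volume volume := by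
    have h1 := Complex.volume_preserving_equiv_real_prod.quasiMeasurePreserving
    have h2 : Measure.QuasiMeasurePreserving (Prod.snd : ℝ × ℝ → ℝ) volume volume :=
      Measure.quasiMeasurePreserving_snd
    exact h2.comp h1
  exact hq.preimage_null hX

/-- local `L²` convergence to zero, in terms of lower integrals, on compact sets -/
theorem per_cpt (f : ℕ → ℂ → ℝ) (hf : ∀ j, ContinuousOn (f j) UH) (hf0 : ∀ j z, 0 ≤ f j z)
    (hl : ∀ z0 ∈ UH, ∃ r : ℝ, 0 < r ∧ Metric.closedBall z0 r ⊆ UH ∧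
      Tendsto (fun j => ∫ z in Metric.ball z0 r, f j z) atTop (𝓝 0))
    (K : Set ℂ) (hK : IsCompact K) (hKU : K ⊆ UH) :
    Tendsto (fun j => ∫⁻ z in K, ENNReal.ofReal (f j z)) atTop (𝓝 0) := by
  refine hK.induction_on (p := fun S => Tendsto (fun j => ∫⁻ z in S, ENNReal.ofReal (f j z))
    atTop (𝓝 0)) ?_ ?_ ?_ ?_
  · simp
  · intro s t hst ht
    exact tendsto_of_tendsto_of_tendsto_of_le_of_le tendsto_const_nhds ht (fun _ => zero_le)
      (fun j => lintegral_mono_set hst)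
  · intro s t hs ht
    have := hs.add ht
    rw [add_zero] at this
    exact tendsto_of_tendsto_of_tendsto_of_le_of_le tendsto_const_nhds this (fun _ => zero_le)
      (fun j => lintegral_union_le _ _ _)
  · intro z hz
    obtain ⟨r, hr, hb, ht⟩ := hl z (hKU hz)
    refine ⟨Metric.ball z r, mem_nhdsWithin_of_mem_nhds (Metric.ball_mem_nhds z hr), ?_⟩
    have h1 : ∀ j, ∫⁻ z in Metric.ball z r, ENNReal.ofReal (f j z) =
        ENNReal.ofReal (∫ z in Metric.ball z r, f j z) := by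
      intro j
      rw [ofReal_integral_eq_lintegral_ofReal]
      · exact ((((hf j).mono hb).integrableOn_compact (isCompact_closedBall z r)).mono_set
          Metric.ball_subset_closedBall)
      · exact ae_of_all _ fun z => hf0 j z
    simp only [h1]
    have := ENNReal.tendsto_ofReal ht
    simpa using this

/-- derivative of `u - Re P` along a line -/
theorem per_line (u : ℂ → ℝ) (P h : ℂ → ℂ) (hu : ∀ z ∈ UH, DifferentiableAt ℝ u z)
    (hP : ∀ z ∈ UH, HasDerivAt P (h z) z) (z0 e : ℂ) (s : ℝ) (hs : z0 + (s : ℂ) * e ∈ UH) :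
    HasDerivAt (fun s : ℝ => u (z0 + (s : ℂ) * e) - (P (z0 + (s : ℂ) * e)).re)
      (fderiv ℝ u (z0 + (s : ℂ) * e) e - (h (z0 + (s : ℂ) * e) * e).re) s := by
  refine HasDerivAt.sub ?_ ?_
  · have h1 : HasDerivAt (fun s : ℝ => z0 + (s : ℂ) * e) e s := by
      have := ((hasDerivAt_id s).ofReal_comp.mul_const e).const_add z0
      simpa using this
    exact (hu _ hs).hasFDerivAt.comp_hasDerivAt s h1
  · have h2 : HasDerivAt (fun t : ℂ => z0 + t * e) e ((s : ℝ) : ℂ) := by
      simpa using ((hasDerivAt_id (s : ℂ)).mul_const e).const_add z0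
    have h3 : HasDerivAt (P ∘ fun t : ℂ => z0 + t * e) (h (z0 + (s : ℂ) * e) * e) ((s : ℝ) : ℂ) :=
      HasDerivAt.comp (h := fun t : ℂ => z0 + t * e) ((s : ℝ) : ℂ) (hP _ hs) h2
    exact h3.real_of_complex

/-- the functions `h` and `cc u` are continuous -/
theorem per_cont (u : ℂ → ℝ) (h : ℂ → ℂ) (hu : ContDiffOn ℝ (⊤ : ℕ∞) u UH)
    (hh : DifferentiableOn ℂ h UH) : ContinuousOn (fun z => ‖cc u z - h z‖ ^ 2) UH ∧
    ContinuousOn (fun z => fderiv ℝ u z) UH := by
  have h1 : ContinuousOn (fun z => fderiv ℝ u z) UH :=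
    hu.continuousOn_fderiv_of_isOpen per_UH_open (by simp)
  refine ⟨?_, h1⟩
  have h2 : ContinuousOn (fun z => ux u z) UH := h1.clm_apply continuousOn_const
  have h3 : ContinuousOn (fun z => uy u z) UH := h1.clm_apply continuousOn_const
  have h4 : ContinuousOn (fun z => cc u z) UH :=
    (Complex.continuous_ofReal.comp_continuousOn h2).sub
      (continuousOn_const.mul (Complex.continuous_ofReal.comp_continuousOn h3))
  exact ((h4.sub hh.continuousOn).norm).pow 2

theorem per_sq (u : ℂ → ℝ) (h : ℂ → ℂ) (z : ℂ) :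
    (fderiv ℝ u z 1 - (h z * 1).re) ^ 2 ≤ ‖cc u z - h z‖ ^ 2 ∧
    (fderiv ℝ u z I - (h z * I).re) ^ 2 ≤ ‖cc u z - h z‖ ^ 2 := by
  have h1 : ‖cc u z - h z‖ ^ 2 = (fderiv ℝ u z 1 - (h z * 1).re) ^ 2 +
      (fderiv ℝ u z I - (h z * I).re) ^ 2 := by
    rw [Complex.sq_norm, Complex.normSq_apply]
    simp [cc, ux, uy]
    ring
  rw [h1]
  exact ⟨by nlinarith [sq_nonneg (fderiv ℝ u z I - (h z * I).re)],
    by nlinarith [sq_nonneg (fderiv ℝ u z 1 - (h z * 1).re)]⟩

theorem per_fub (F : ℕ → ℝ × ℝ → ENNReal) (μ ν : Measure ℝ) [SFinite μ] [SFinite ν]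
    (hF : ∀ j, AEMeasurable (F j) (μ.prod ν))
    (hT : Tendsto (fun j => ∫⁻ p, F j p ∂(μ.prod ν)) atTop (𝓝 0)) :
    ∃ φ : ℕ → ℕ, StrictMono φ ∧
      (∀ᵐ y ∂ν, Tendsto (fun k => ∫⁻ x, F (φ k) (x, y) ∂μ) atTop (𝓝 0)) ∧
      (∀ᵐ x ∂μ, Tendsto (fun k => ∫⁻ y, F (φ k) (x, y) ∂ν) atTop (𝓝 0)) := by
  have hev : ∀ n : ℕ, ∀ᶠ j in atTop, ∫⁻ p, F j p ∂(μ.prod ν) ≤ (1 / 2 : ENNReal) ^ n := by
    intro n
    refine hT.eventually_le_const ?_
    exact ENNReal.pow_pos (by simp) n
  obtain ⟨φ, hφ, hφ'⟩ := extraction_forall_of_eventually hev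
  have hsum : ∑' k, ∫⁻ p, F (φ k) p ∂(μ.prod ν) ≠ ⊤ := by
    refine ne_top_of_le_ne_top ?_ (ENNReal.tsum_le_tsum hφ')
    rw [ENNReal.tsum_geometric]
    simp
  refine ⟨φ, hφ, ?_, ?_⟩
  · have h1 : ∀ k, ∫⁻ p, F (φ k) p ∂(μ.prod ν) = ∫⁻ y, ∫⁻ x, F (φ k) (x, y) ∂μ ∂ν :=
      fun k => lintegral_prod_symm _ (hF _)
    have h2 : ∫⁻ y, ∑' k, ∫⁻ x, F (φ k) (x, y) ∂μ ∂ν ≠ ⊤ := by
      rw [lintegral_tsum]
      · simpa only [h1] using hsum
      · intro k
        exact (hF (φ k)).prod_swap.lintegral_prod_right'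
    have h3 := ae_lt_top' (AEMeasurable.ennreal_tsum fun k =>
      (hF (φ k)).prod_swap.lintegral_prod_right') h2
    filter_upwards [h3] with y hy
    exact ENNReal.tendsto_atTop_zero_of_tsum_ne_top hy.ne
  · have h1 : ∀ k, ∫⁻ p, F (φ k) p ∂(μ.prod ν) = ∫⁻ x, ∫⁻ y, F (φ k) (x, y) ∂ν ∂μ :=
      fun k => lintegral_prod _ (hF _)
    have h2 : ∫⁻ x, ∑' k, ∫⁻ y, F (φ k) (x, y) ∂ν ∂μ ≠ ⊤ := by
      rw [lintegral_tsum]
      · simpa only [h1] using hsum
      · intro k
        exact (hF (φ k)).lintegral_prod_right'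
    have h3 := ae_lt_top' (AEMeasurable.ennreal_tsum fun k =>
      (hF (φ k)).lintegral_prod_right') h2
    filter_upwards [h3] with y hy
    exact ENNReal.tendsto_atTop_zero_of_tsum_ne_top hy.ne

theorem st_PER : ST_PER := by
  intro N W ρ u h P hN hu hP hh hl heq g hg z hz
  have hUo := per_UH_open
  have hz0 : 0 < z.im := hz
  have hgz : mob g z ∈ UH := per_mob_im g z hz
  have hgz0 : 0 < (mob g z).im := hgz
  -- step 1: `P (g w) - P w` is constant
  have hD : ∀ w ∈ UH, P (mob g w) - P w = P (mob g z) - P z := by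
    have hconv : Convex ℝ UH := by
      have : UH = Complex.imCLM ⁻¹' (Ioi 0) := rfl
      rw [this]
      exact (convex_Ioi (0 : ℝ)).linear_preimage Complex.imCLM.toLinearMap
    have hder : ∀ w ∈ UH, HasDerivAt (fun w => P (mob g w) - P w) 0 w := by
      intro w hw
      have h1 : HasDerivAt (P ∘ mob g) (h (mob g w) * (jj g w ^ 2)⁻¹) w :=
        HasDerivAt.comp (h := mob g) w (hP _ (per_mob_im g w hw)) (per_mob_deriv g w hw)
      have h2 := h1.sub (hP w hw)
      have h3 : h (mob g w) * (jj g w ^ 2)⁻¹ - h w = 0 := by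
        rw [heq g hg w hw]
        have := per_jj_ne g w hw
        field_simp
        ring
      rw [h3] at h2
      exact h2
    intro w hw
    refine hconv.is_const_of_fderivWithin_eq_zero (𝕜 := ℂ) (f := fun w => P (mob g w) - P w)
      (fun w hw => (hder w hw).differentiableAt.differentiableWithinAt) ?_ hw hz
    intro w hw
    rw [fderivWithin_of_isOpen hUo hw]
    have := (hder w hw).hasFDerivAt.fderiv
    rw [this]
    ext
    simp
  -- step 2: increments
  have hκ : ∀ j, ∀ w ∈ UH, (u j (mob g w) - (P (mob g w)).re) - (u j w - (P w).re) =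
      ρ g - (P (mob g z) - P z).re := by
    intro j w hw
    rw [(hu j).eqv g hg w hw, ← hD w hw, Complex.sub_re]
    ring
  -- step 3: the rectangle
  set a := min z.re (mob g z).re - 1 with ha
  set b := max z.re (mob g z).re + 1 with hb
  set c := min z.im (mob g z).im / 2 with hc
  set d := max z.im (mob g z).im + 1 with hd
  have hc0 : 0 < c := by
    rw [hc]; exact half_pos (lt_min hz0 hgz0)
  have hRU : ∀ x y : ℝ, y ∈ Icc c d → ((x : ℂ) + (y : ℂ) * I) ∈ UH := by
    intro x y hy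
    change 0 < ((x : ℂ) + (y : ℂ) * I).im
    simp
    exact lt_of_lt_of_le hc0 hy.1
  set R : Set ℂ := Icc a b ×ℂ Icc c d with hR
  have hRc : IsCompact R := isCompact_Icc.reProdIm isCompact_Icc
  have hRsub : R ⊆ UH := by
    intro w hw
    have : w.im ∈ Icc c d := hw.2
    exact lt_of_lt_of_le hc0 this.1
  set f : ℕ → ℂ → ℝ := fun j z => ‖cc (u j) z - h z‖ ^ 2 with hf
  have hfc : ∀ j, ContinuousOn (f j) UH := fun j => (per_cont (u j) h (hu j).smooth hh).1
  have hT := per_cpt f hfc (fun j z => by positivity) hl R hRc hRsub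
  set F : ℕ → ℝ × ℝ → ENNReal := fun j p => ENNReal.ofReal (f j ((p.1 : ℂ) + (p.2 : ℂ) * I)) with hF
  have hcontp : ∀ j, ContinuousOn (fun p : ℝ × ℝ => f j ((p.1 : ℂ) + (p.2 : ℂ) * I))
      (Icc a b ×ˢ Icc c d) := by
    intro j
    refine (hfc j).comp (by fun_prop) ?_
    rintro ⟨x, y⟩ ⟨hx, hy⟩
    exact hRU x y hy
  have hmeasR : (volume.restrict (Icc a b)).prod (volume.restrict (Icc c d)) =
      (volume : Measure (ℝ × ℝ)).restrict (Icc a b ×ˢ Icc c d) := by
    rw [Measure.prod_restrict]; rfl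
  have hFm : ∀ j, AEMeasurable (F j) ((volume.restrict (Icc a b)).prod (volume.restrict (Icc c d))) := by
    intro j
    rw [hmeasR]
    exact ((hcontp j).aemeasurable (measurableSet_Icc.prod measurableSet_Icc)).ennreal_ofReal
  have hTF : Tendsto (fun j => ∫⁻ p, F j p ∂((volume.restrict (Icc a b)).prod
      (volume.restrict (Icc c d)))) atTop (𝓝 0) := by
    have h1 : ∀ j, ∫⁻ p, F j p ∂((volume.restrict (Icc a b)).prod (volume.restrict (Icc c d))) =
        ∫⁻ z in R, ENNReal.ofReal (f j z) := by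
      intro j
      rw [hmeasR]
      have h2 := (Complex.volume_preserving_equiv_real_prod.symm
        Complex.measurableEquivRealProd).setLIntegral_comp_preimage_emb
        Complex.measurableEquivRealProd.symm.measurableEmbedding
        (fun z => ENNReal.ofReal (f j z)) R
      rw [← h2]
      have h3 : (Complex.measurableEquivRealProd.symm ⁻¹' R) = Icc a b ×ˢ Icc c d := by
        ext ⟨x, y⟩
        rw [mem_preimage, hR, Complex.mem_reProdIm, Complex.measurableEquivRealProd_symm_apply,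
          mem_prod]
      rw [h3]
      refine setLIntegral_congr_fun (measurableSet_Icc.prod measurableSet_Icc) ?_
      rintro ⟨x, y⟩ _
      simp [hF, Complex.measurableEquivRealProd_symm_apply, Complex.mk_eq_add_mul_I]
    simp only [h1]
    exact hT
  obtain ⟨φ, hφ, hgy, hgx⟩ := per_fub F (volume.restrict (Icc a b)) (volume.restrict (Icc c d)) hFm hTF
  rw [ae_restrict_iff' measurableSet_Icc] at hgy hgx
  -- step 4: the good point
  have hgood1 : ∀ᵐ w ∂(volume : Measure ℂ), w.im ∈ Icc c d →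
      Tendsto (fun k => ∫⁻ x in Icc a b, F (φ k) (x, w.im)) atTop (𝓝 0) := by
    have h0 := per_im_null _ hgy
    exact h0
  have hgood2' : ∀ᵐ w ∂(volume : Measure ℂ), w.re ∈ Icc a b →
      Tendsto (fun k => ∫⁻ y in Icc c d, F (φ k) (w.re, y)) atTop (𝓝 0) := by
    have h0 := per_re_null _ hgx
    exact h0
  have hgood2 : ∀ᵐ w ∂(volume : Measure ℂ), w ∈ UH → (mob g w).re ∈ Icc a b →
      Tendsto (fun k => ∫⁻ y in Icc c d, F (φ k) ((mob g w).re, y)) atTop (𝓝 0) := by
    rw [ae_iff] at hgood2' ⊢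
    set Z := {w : ℂ | ¬ (w.re ∈ Icc a b →
      Tendsto (fun k => ∫⁻ y in Icc c d, F (φ k) (w.re, y)) atTop (𝓝 0))} with hZ
    have h1 : volume (mob g⁻¹ '' (Z ∩ UH)) = 0 := by
      refine addHaar_image_eq_zero_of_differentiableOn_of_addHaar_eq_zero volume ?_
        (measure_mono_null inter_subset_left hgood2')
      intro w hw
      exact ((per_mob_deriv g⁻¹ w hw.2).hasFDerivAt.restrictScalars ℝ).differentiableAt.differentiableWithinAt
    refine measure_mono_null ?_ h1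
    intro w hw
    simp only [mem_ofPred_eq, Classical.not_imp] at hw
    refine ⟨mob g w, ⟨?_, per_mob_im g w hw.1⟩, per_mob_inv g w hw.1⟩
    rw [hZ]
    simp only [mem_ofPred_eq, Classical.not_imp]
    exact hw.2
  have hopen : ∃ B ∈ 𝓝 z, ∀ w ∈ B, w ∈ UH ∧ w.re ∈ Icc a b ∧ w.im ∈ Icc c d ∧
      (mob g w).re ∈ Icc a b ∧ (mob g w).im ∈ Icc c d := by
    have hcont : ContinuousAt (mob g) z := (per_mob_deriv g z hz).continuousAt
    have k1 : ∀ᶠ w in 𝓝 z, w ∈ UH := hUo.mem_nhds hz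
    have k2 : ∀ᶠ w in 𝓝 z, w.re ∈ Icc a b := by
      refine Complex.continuous_re.continuousAt.eventually (Icc_mem_nhds ?_ ?_)
      · rw [ha]; linarith [min_le_left z.re (mob g z).re]
      · rw [hb]; linarith [le_max_left z.re (mob g z).re]
    have k3 : ∀ᶠ w in 𝓝 z, w.im ∈ Icc c d := by
      refine Complex.continuous_im.continuousAt.eventually (Icc_mem_nhds ?_ ?_)
      · rw [hc]; linarith [min_le_left z.im (mob g z).im, lt_min hz0 hgz0]
      · rw [hd]; linarith [le_max_left z.im (mob g z).im]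
    have k4 : ∀ᶠ w in 𝓝 z, (mob g w).re ∈ Icc a b := by
      refine (Complex.continuous_re.continuousAt.comp hcont).eventually (Icc_mem_nhds ?_ ?_)
      · change a < (mob g z).re
        rw [ha]; linarith [min_le_right z.re (mob g z).re]
      · change (mob g z).re < b
        rw [hb]; linarith [le_max_right z.re (mob g z).re]
    have k5 : ∀ᶠ w in 𝓝 z, (mob g w).im ∈ Icc c d := by
      refine (Complex.continuous_im.continuousAt.comp hcont).eventually (Icc_mem_nhds ?_ ?_)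
      · change c < (mob g z).im
        rw [hc]; linarith [min_le_right z.im (mob g z).im, lt_min hz0 hgz0]
      · change (mob g z).im < d
        rw [hd]; linarith [le_max_right z.im (mob g z).im]
    refine ⟨_, (k1.and (k2.and (k3.and (k4.and k5)))), fun w hw => hw⟩
  obtain ⟨B, hB, hBw⟩ := hopen
  have hdense := (Measure.dense_of_ae (μ := (volume : Measure ℂ)) (hgood1.and hgood2))
  obtain ⟨w, hwB, hw⟩ := hdense.inter_open_nonempty (interior B) isOpen_interior
    ⟨z, mem_interior_iff_mem_nhds.2 hB⟩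
  obtain ⟨hwU, hwre, hwim, hgre, hgim⟩ := hBw w (interior_subset hwB)
  have ht1 := hw.1 hwim
  have ht2 := hw.2 hwU hgre
  -- step 5: conclusion
  have hkey : ∀ ε : ℝ, 0 < ε → ∀ j, |ρ g - (P (mob g z) - P z).re| ≤
      ((b - a) * ε + (∫ s in Icc a b, f j ((s : ℂ) + (w.im : ℂ) * I)) / (4 * ε)) +
      ((d - c) * ε + (∫ t in Icc c d, f j (((mob g w).re : ℂ) + (t : ℂ) * I)) / (4 * ε)) := by
    intro ε hε j
    have hdiff : ∀ z ∈ UH, DifferentiableAt ℝ (u j) z := fun z hz =>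
      ((hu j).smooth.differentiableOn (by simp)).differentiableAt (hUo.mem_nhds hz)
    set v : ℂ → ℝ := fun z => u j z - (P z).re with hv
    have hcontf := (per_cont (u j) h (hu j).smooth hh).2
    -- horizontal
    have e1 := per_1d (fun s : ℝ => v ((w.im : ℂ) * I + (s : ℂ) * 1))
      (fun s : ℝ => fderiv ℝ (u j) ((w.im : ℂ) * I + (s : ℂ) * 1) 1 -
        (h ((w.im : ℂ) * I + (s : ℂ) * 1) * 1).re)
      (fun s : ℝ => f j ((w.im : ℂ) * I + (s : ℂ) * 1)) a b w.re (mob g w).re ε hwre hgre hε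
      (fun s hs => per_line (u j) P h hdiff hP _ _ s (by
        have := hRU s w.im hwim
        rwa [mul_one, add_comm])) (by
        have hmaps : MapsTo (fun s : ℝ => (w.im : ℂ) * I + (s : ℂ) * 1) (Icc a b) UH := by
          intro s hs
          have := hRU s w.im hwim
          show (w.im : ℂ) * I + (s : ℂ) * 1 ∈ UH
          rwa [mul_one, add_comm]
        have hco : ContinuousOn (fun s : ℝ => (w.im : ℂ) * I + (s : ℂ) * 1) (Icc a b) := by fun_prop
        exact ((hcontf.comp hco hmaps).clm_apply continuousOn_const).sub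
          (Complex.continuous_re.comp_continuousOn ((hh.continuousOn.comp hco hmaps).mul
            continuousOn_const))) (by
        refine (hfc j).comp (by fun_prop) ?_
        intro s hs
        have := hRU s w.im hwim
        show (w.im : ℂ) * I + (s : ℂ) * 1 ∈ UH
        rwa [mul_one, add_comm]) (fun s hs => (per_sq (u j) h _).1)
    -- vertical
    have e2 := per_1d (fun t : ℝ => v (((mob g w).re : ℂ) + (t : ℂ) * I))
      (fun t : ℝ => fderiv ℝ (u j) (((mob g w).re : ℂ) + (t : ℂ) * I) I -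
        (h (((mob g w).re : ℂ) + (t : ℂ) * I) * I).re)
      (fun t : ℝ => f j (((mob g w).re : ℂ) + (t : ℂ) * I)) c d w.im (mob g w).im ε hwim hgim hε
      (fun t ht => per_line (u j) P h hdiff hP _ _ t (hRU _ t ht)) (by
        have hmaps : MapsTo (fun t : ℝ => ((mob g w).re : ℂ) + (t : ℂ) * I) (Icc c d) UH := by
          intro t ht
          exact hRU _ t ht
        have hco : ContinuousOn (fun t : ℝ => ((mob g w).re : ℂ) + (t : ℂ) * I) (Icc c d) := by
          fun_prop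
        exact ((hcontf.comp hco hmaps).clm_apply continuousOn_const).sub
          (Complex.continuous_re.comp_continuousOn ((hh.continuousOn.comp hco hmaps).mul
            continuousOn_const))) (by
        refine (hfc j).comp (by fun_prop) ?_
        intro t ht
        exact hRU _ t ht) (fun s hs => (per_sq (u j) h _).2)
    have q1 : (w.im : ℂ) * I + (w.re : ℂ) * 1 = w := by
      rw [mul_one, add_comm]; exact Complex.re_add_im w
    have q2 : ((mob g w).re : ℂ) + ((mob g w).im : ℂ) * I = mob g w := Complex.re_add_im _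
    have q3 : (w.im : ℂ) * I + ((mob g w).re : ℂ) * 1 = ((mob g w).re : ℂ) + (w.im : ℂ) * I := by
      ring
    have q4 : ∀ s : ℝ, (w.im : ℂ) * I + (s : ℂ) * 1 = (s : ℂ) + (w.im : ℂ) * I := fun s => by ring
    simp only [q4] at e1
    have q5 : ((w.re : ℂ)) + (w.im : ℂ) * I = w := Complex.re_add_im w
    rw [q5] at e1
    simp only [q2] at e2
    have hk := hκ j w hwU
    have : ρ g - (P (mob g z) - P z).re =
        (v (((mob g w).re : ℂ) + (w.im : ℂ) * I) - v w) +
        (v (mob g w) - v (((mob g w).re : ℂ) + (w.im : ℂ) * I)) := by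
      rw [← hk]
      simp only [hv]
      ring
    rw [this]
    exact (abs_add_le _ _).trans (add_le_add e1 e2)
  have hint1 : Tendsto (fun k => ∫ s in Icc a b, f (φ k) ((s : ℂ) + (w.im : ℂ) * I)) atTop (𝓝 0) := by
    have h1 : ∀ k, ∫ s in Icc a b, f (φ k) ((s : ℂ) + (w.im : ℂ) * I) =
        (∫⁻ x in Icc a b, F (φ k) (x, w.im)).toReal := by
      intro k
      rw [integral_eq_lintegral_of_nonneg_ae]
      · exact ae_of_all _ fun s => by simp only [hf]; positivity
      · refine ContinuousOn.aestronglyMeasurable ?_ measurableSet_Icc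
        refine (hfc _).comp (by fun_prop) ?_
        intro s hs
        exact hRU s w.im hwim
    simp only [h1]
    exact (ENNReal.tendsto_toReal ENNReal.zero_ne_top).comp ht1
  have hint2 : Tendsto (fun k => ∫ t in Icc c d, f (φ k) (((mob g w).re : ℂ) + (t : ℂ) * I))
      atTop (𝓝 0) := by
    have h1 : ∀ k, ∫ t in Icc c d, f (φ k) (((mob g w).re : ℂ) + (t : ℂ) * I) =
        (∫⁻ y in Icc c d, F (φ k) ((mob g w).re, y)).toReal := by
      intro k
      rw [integral_eq_lintegral_of_nonneg_ae]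
      · exact ae_of_all _ fun s => by simp only [hf]; positivity
      · refine ContinuousOn.aestronglyMeasurable ?_ measurableSet_Icc
        refine (hfc _).comp (by fun_prop) ?_
        intro s hs
        exact hRU _ s hs
    simp only [h1]
    exact (ENNReal.tendsto_toReal ENNReal.zero_ne_top).comp ht2
  have hle : ∀ ε : ℝ, 0 < ε → |ρ g - (P (mob g z) - P z).re| ≤ (b - a) * ε + (d - c) * ε := by
    intro ε hε
    have hlim : Tendsto (fun k => ((b - a) * ε +
        (∫ s in Icc a b, f (φ k) ((s : ℂ) + (w.im : ℂ) * I)) / (4 * ε)) +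
      ((d - c) * ε + (∫ t in Icc c d, f (φ k) (((mob g w).re : ℂ) + (t : ℂ) * I)) / (4 * ε)))
      atTop (𝓝 (((b - a) * ε + 0 / (4 * ε)) + ((d - c) * ε + 0 / (4 * ε)))) :=
      ((tendsto_const_nhds).add (hint1.div_const _)).add
        ((tendsto_const_nhds).add (hint2.div_const _))
    have h3 := ge_of_tendsto' hlim (fun k => hkey ε hε (φ k))
    simpa using h3
  have hzero : |ρ g - (P (mob g z) - P z).re| ≤ 0 := by
    refine le_of_forall_pos_le_add fun δ hδ => ?_
    have hbd : 0 < (b - a) + (d - c) := by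
      have h1 : a < b := by
        rw [ha, hb]
        have := min_le_max (a := z.re) (b := (mob g z).re)
        linarith
      have h2 : c < d := by
        rw [hc, hd]
        have h3 := min_le_max (a := z.im) (b := (mob g z).im)
        have h4 := lt_min hz0 hgz0
        linarith
      linarith
    have := hle (δ / ((b - a) + (d - c))) (by positivity)
    have h5 : (b - a) * (δ / ((b - a) + (d - c))) + (d - c) * (δ / ((b - a) + (d - c))) = δ := by
      field_simp
    rw [h5] at this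
    linarith
  have := abs_nonpos_iff.1 hzero
  linarith

end Pool.Agent.Helper96.MP
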